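import Pool.Agent.MP_5c28a4_al.H89S.Spec

/-! Subgroups of prime power order in locally finite groups. -/

set_option autoImplicit false

namespace Pool.Agent.MP_5c28a4_al.H89S

open scoped commutatorElement Pointwise

namespace BStA

variable {G G' : Type} [Group G] [Group G']

theorem one_of_coprime {y : G} {m n : ℕ} (h : m.Coprime n) (h1 : y ^ m = 1) (h2 : y ^ n = 1) :
    y = 1 := by
  rw [← orderOf_eq_one_iff, ← Nat.dvd_one, ← h]
  exact Nat.dvd_gcd (orderOf_dvd_of_pow_eq_one h1) (orderOf_dvd_of_pow_eq_one h2)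

theorem isP {p : ℕ} {P : Subgroup G} : IsPGroup p P ↔ ∀ x ∈ P, ∃ e : ℕ, x ^ p ^ e = 1 := by
  constructor
  · intro h x hx
    obtain ⟨e, he⟩ := h ⟨x, hx⟩
    exact ⟨e, by simpa using congrArg Subtype.val he⟩
  · rintro h ⟨x, hx⟩
    obtain ⟨e, he⟩ := h x hx
    exact ⟨e, Subtype.ext (by simpa using he)⟩

theorem fin_le {E E' : Subgroup G} (h : E ≤ E') (hE : Finite E') : Finite E :=
  Finite.of_injective _ (Subgroup.inclusion_injective h)

theorem fin_map (f : G →* G') {E : Subgroup G} (hE : Finite E) : Finite (E.map f) :=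
  Finite.of_surjective _ (f.subgroupMap_surjective E)

theorem locFin_le {X X' : Subgroup G} (h : X ≤ X') (hX : LocFin X') : LocFin X :=
  fun T hT => hX T fun t ht => h (hT t ht)

theorem isP_map {p : ℕ} {Y : Subgroup G} [Y.Normal] {X : Subgroup G} (h : PMod p Y X) :
    IsPGroup p (X.map (QuotientGroup.mk' Y)) := by
  refine isP.2 ?_
  rintro _ ⟨x, hx, rfl⟩
  obtain ⟨e, he⟩ := h x hx
  exact ⟨e, by rw [← map_pow]; exact (QuotientGroup.eq_one_iff _).2 he⟩

/-- a Sylow subgroup of a finite group covers every image of prime power order -/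
theorem syl (f : G →* G') {p : ℕ} (hp : p.Prime) {E : Subgroup G} (hE : Finite E)
    (hP : IsPGroup p (E.map f)) :
    ∃ J : Subgroup G, J ≤ E ∧ Finite J ∧ IsPGroup p J ∧ J.map f = E.map f := by
  have := Fact.mk hp
  obtain ⟨P⟩ : Nonempty (Sylow p E) := inferInstance
  have h1 : ⊤ = (P : Subgroup E).map (f.subgroupMap E) :=
    (P.mapSurjective (f.subgroupMap_surjective E)).is_maximal' (hP.to_subgroup ⊤) le_top
  refine ⟨(P : Subgroup E).map E.subtype, Subgroup.map_subtype_le _,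
    fin_le (Subgroup.map_subtype_le _) hE, P.isPGroup'.map _,
    le_antisymm (Subgroup.map_mono (Subgroup.map_subtype_le _)) fun y hy => ?_⟩
  obtain ⟨x, hx, h2⟩ : (⟨y, hy⟩ : E.map f) ∈ (P : Subgroup E).map (f.subgroupMap E) :=
    h1 ▸ Subgroup.mem_top _
  exact ⟨x, ⟨x, hx, rfl⟩, congrArg Subtype.val h2⟩

theorem lift1 (f : G →* G') {p : ℕ} (hp : p.Prime) {X : Subgroup G} (hX : LocFin X)
    {P : Subgroup G'} (hP : P ≤ X.map f) (hf : Finite P) (hpP : IsPGroup p P) :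
    ∃ J : Subgroup G, J ≤ X ∧ Finite J ∧ IsPGroup p J ∧ J.map f = P := by
  classical
  choose s hs1 hs2 using fun y : P => Subgroup.mem_map.1 (hP y.2)
  have hT : (Set.range s).Finite := Set.finite_range s
  have hE := hX hT.toFinset fun t ht => by
    obtain ⟨y, rfl⟩ := hT.mem_toFinset.1 ht
    exact hs1 y
  rw [hT.coe_toFinset] at hE
  have e : (Subgroup.closure (Set.range s) ⊓ P.comap f).map f = P := by
    refine le_antisymm (Subgroup.map_le_iff_le_comap.2 inf_le_right) fun y hy => ?_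
    exact ⟨s ⟨y, hy⟩, Subgroup.mem_inf.2 ⟨Subgroup.subset_closure ⟨_, rfl⟩, by
      rw [Subgroup.mem_comap, hs2]; exact hy⟩, hs2 _⟩
  obtain ⟨J, h1, h2, h3, h4⟩ := syl f hp (fin_le inf_le_left hE) (by rw [e]; exact hpP)
  refine ⟨J, h1.trans (inf_le_left.trans ((Subgroup.closure_le _).2 ?_)), h2, h3, h4.trans e⟩
  rintro _ ⟨y, rfl⟩
  exact hs1 y

/-- every element of a term of the lower central series comes from finitely many elements -/
theorem lcs_fin (X : Subgroup G) (c : ℕ) : ∀ x ∈ X.lowerCentralSeries c, ∃ T : Finset G,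
    (∀ t ∈ T, t ∈ X) ∧ x ∈ (Subgroup.closure (↑T : Set G)).lowerCentralSeries c := by
  classical
  have mono : ∀ (n : ℕ) (T T' : Finset G), T ⊆ T' →
      (Subgroup.closure (↑T : Set G)).lowerCentralSeries n ≤
        (Subgroup.closure (↑T' : Set G)).lowerCentralSeries n := fun n T T' h =>
    Subgroup.lowerCentralSeries_mono n (Subgroup.closure_mono (Finset.coe_subset.2 h))
  induction c with
  | zero =>
    intro x hx
    exact ⟨{x}, by simpa using hx, Subgroup.subset_closure (by simp)⟩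
  | succ c ih =>
    intro x hx
    rw [Subgroup.mem_lowerCentralSeries_succ_iff] at hx
    induction hx using Subgroup.closure_induction with
    | mem y hy =>
      obtain ⟨a, ha, b, hb, rfl⟩ := hy
      obtain ⟨T, h1, h2⟩ := ih a ha
      refine ⟨insert b T, by simpa using ⟨hb, h1⟩, ?_⟩
      exact Subgroup.commutator_mem_commutator (mono c _ _ (Finset.subset_insert _ _) h2)
        (Subgroup.subset_closure (by simp))
    | one => exact ⟨∅, by simp, one_mem _⟩
    | mul a b _ _ ha hb =>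
      obtain ⟨T, h1, h2⟩ := ha
      obtain ⟨T', h3, h4⟩ := hb
      refine ⟨T ∪ T', fun t ht => (Finset.mem_union.1 ht).elim (h1 t) (h3 t), ?_⟩
      exact mul_mem (mono _ _ _ Finset.subset_union_left h2)
        (mono _ _ _ Finset.subset_union_right h4)
    | inv a _ ha =>
      obtain ⟨T, h1, h2⟩ := ha
      exact ⟨T, h1, inv_mem h2⟩

/-- a finite nilpotent group is residually of prime power order -/
theorem sep {H : Type} [Group H] [Finite H] [Group.IsNilpotent H] {x : H}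
    (h : ∀ p : ℕ, p.Prime → ∀ (A : Type) [Group A] (π : H →* A), IsPGroup p A → π x = 1) :
    x = 1 := by
  obtain ⟨e⟩ := (Group.isNilpotent_of_finite_tfae (G := H)).out 0 4 |>.1 ‹_›
  apply e.symm.injective
  rw [map_one]
  funext p P
  exact h p (Nat.prime_of_mem_primeFactors p.2) P
    ((Pi.evalMonoidHom _ P).comp ((Pi.evalMonoidHom _ p).comp e.symm.toMonoidHom)) P.isPGroup'

theorem nil {H : Type} [Group H] [Finite H] [Group.IsNilpotent H] {r : ℕ} (hr : r.Prime)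
    (a b : H) :
    ((∃ e : ℕ, a ^ r ^ e = 1) → (∃ e : ℕ, b ^ r ^ e = 1) → ∃ e : ℕ, (a * b) ^ r ^ e = 1) ∧
    ((∃ m : ℕ, m.Coprime r ∧ a ^ m = 1) → (∃ m : ℕ, m.Coprime r ∧ b ^ m = 1) →
      ∃ m : ℕ, m.Coprime r ∧ (a * b) ^ m = 1) ∧
    ((∃ e : ℕ, a ^ r ^ e = 1) → (∃ m : ℕ, m.Coprime r ∧ b ^ m = 1) → ⁅a, b⁆ = 1) := by
  have k1 : ∀ p : ℕ, p.Prime → p ≠ r → ∀ (A : Type) [Group A] (π : H →* A), IsPGroup p A →
      ∀ x : H, (∃ e : ℕ, x ^ r ^ e = 1) → π x = 1 := by
    rintro p hp hne A _ π hA x ⟨e, he⟩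
    obtain ⟨k, hk⟩ := hA (π x)
    exact one_of_coprime (((Nat.coprime_primes hp hr).2 hne).pow k e) hk
      (by rw [← map_pow, he, map_one])
  have k2 : ∀ (A : Type) [Group A] (π : H →* A), IsPGroup r A →
      ∀ x : H, (∃ m : ℕ, m.Coprime r ∧ x ^ m = 1) → π x = 1 := by
    rintro A _ π hA x ⟨m, hm, he⟩
    obtain ⟨k, hk⟩ := hA (π x)
    exact one_of_coprime (hm.pow_right k) (by rw [← map_pow, he, map_one]) hk
  obtain ⟨v, m, hm, hn⟩ := Nat.exists_eq_pow_mul_and_not_dvd (orderOf_pos (a * b)).ne' r hr.ne_one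
  have hm' : m.Coprime r := ((Nat.Prime.coprime_iff_not_dvd hr).2 hm).symm
  have h0 : (a * b) ^ (r ^ v * m) = 1 := by rw [← hn, pow_orderOf_eq_one]
  refine ⟨fun ha hb => ⟨v, sep fun p hp A _ π hA => ?_⟩,
    fun ha hb => ⟨m, hm', sep fun p hp A _ π hA => ?_⟩, fun ha hb => sep fun p hp A _ π hA => ?_⟩
  · by_cases hne : p = r
    · exact k2 A π (hne ▸ hA) _ ⟨m, hm', by rw [← pow_mul, h0]⟩
    · rw [map_pow, map_mul, k1 p hp hne A π hA a ha, k1 p hp hne A π hA b hb, one_mul, one_pow]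
  · by_cases hne : p = r
    · rw [map_pow, map_mul, k2 A π (hne ▸ hA) a ha, k2 A π (hne ▸ hA) b hb, one_mul, one_pow]
    · exact k1 p hp hne A π hA _ ⟨v, by rw [← pow_mul, mul_comm m, h0]⟩
  · rw [map_commutatorElement]
    by_cases hne : p = r
    · rw [k2 A π (hne ▸ hA) b hb, commutatorElement_one_right]
    · rw [k1 p hp hne A π hA a ha, commutatorElement_one_left]

theorem nilY {K Y : Subgroup G} [Y.Normal] {d r : ℕ} (hr : r.Prime) (hK : LocFin K)
    (hd : K.lowerCentralSeries d ≤ Y) {a b : G} (ha : a ∈ K) (hb : b ∈ K) :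
    ((∃ e : ℕ, a ^ r ^ e ∈ Y) → (∃ e : ℕ, b ^ r ^ e ∈ Y) → ∃ e : ℕ, (a * b) ^ r ^ e ∈ Y) ∧
    ((∃ m : ℕ, m.Coprime r ∧ a ^ m ∈ Y) → (∃ m : ℕ, m.Coprime r ∧ b ^ m ∈ Y) →
      ∃ m : ℕ, m.Coprime r ∧ (a * b) ^ m ∈ Y) ∧
    ((∃ e : ℕ, a ^ r ^ e ∈ Y) → (∃ m : ℕ, m.Coprime r ∧ b ^ m ∈ Y) → ⁅a, b⁆ ∈ Y) := by
  classical
  have hE := hK {a, b} (by simpa using ⟨ha, hb⟩)
  have hEK : Subgroup.closure (↑({a, b} : Finset G) : Set G) ≤ K :=
    (Subgroup.closure_le _).2 (by simpa [Set.insert_subset_iff] using ⟨ha, hb⟩)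
  have haE : a ∈ Subgroup.closure (↑({a, b} : Finset G) : Set G) :=
    Subgroup.subset_closure (by simp)
  have hbE : b ∈ Subgroup.closure (↑({a, b} : Finset G) : Set G) :=
    Subgroup.subset_closure (by simp)
  generalize Subgroup.closure (↑({a, b} : Finset G) : Set G) = E at hE hEK haE hbE
  have := fin_map (QuotientGroup.mk' Y) hE
  have : Group.IsNilpotent (E.map (QuotientGroup.mk' Y)) :=
    (Subgroup.isNilpotent_iff_lowerCentralSeries _).2 ⟨d, by
      rw [← Subgroup.map_lowerCentralSeries, Subgroup.map_eq_bot_iff, QuotientGroup.ker_mk']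
      exact (Subgroup.lowerCentralSeries_mono d hEK).trans hd⟩
  have e : ∀ x : E, (QuotientGroup.mk' Y).subgroupMap E x = 1 ↔ (x : G) ∈ Y := fun x => by
    rw [Subtype.ext_iff]
    exact QuotientGroup.eq_one_iff _
  have := nil hr ((QuotientGroup.mk' Y).subgroupMap E ⟨a, haE⟩)
    ((QuotientGroup.mk' Y).subgroupMap E ⟨b, hbE⟩)
  simp only [← map_mul, ← map_pow, ← map_commutatorElement, e] at this
  exact this

/-- a supplement of a normal subgroup of coprime torsion is a Sylow subgroup -/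
theorem sylowOf {R J H : Subgroup G} [R.Normal] {r : ℕ}
    (hR : ∀ x ∈ R, ∃ m : ℕ, m.Coprime r ∧ x ^ m = 1) (hJ : IsPGroup r J) (hJH : J ≤ H)
    (hH : H ≤ J ⊔ R) : ∃ P : Sylow r H, (P : Subgroup H) = J.subgroupOf H := by
  refine ⟨⟨J.subgroupOf H, hJ.comap_subtype, fun {Q} hQ hle => le_antisymm (fun q hq => ?_) hle⟩,
    rfl⟩
  obtain ⟨j, hj, x, hx, e⟩ := Subgroup.mem_sup_of_normal_right.1 (hH q.2)
  have h1 : (⟨j, hJH hj⟩ : H)⁻¹ * q ∈ Q := mul_mem (inv_mem (hle hj)) hq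
  obtain ⟨k, hk⟩ := isP.1 hQ _ h1
  obtain ⟨m, hm, h2⟩ := hR x hx
  have h3 : x ^ r ^ k = 1 := by
    have := congrArg Subtype.val hk
    simpa [← e] using this
  rw [one_of_coprime (hm.pow_right k) h2 h3, mul_one] at e
  exact Subgroup.mem_subgroupOf.2 (e ▸ hj)

end BStA

open BStA in
theorem bSt : BSt where
  map := by
    intro G G' _ _ f X c hX hc p hp P hP hf hpP
    obtain ⟨J, h1, h2, h3, rfl⟩ := lift1 f hp hX hP hf hpP
    rw [← Subgroup.map_lowerCentralSeries, hc p hp J h1 h2 h3, Subgroup.map_bot]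
  glob := by
    intro G _ K X Y c p hp hK hc hX hY hP x hx
    obtain ⟨T, h1, h2⟩ := lcs_fin X c x hx
    have hE : Subgroup.closure (↑T : Set G) ≤ X := (Subgroup.closure_le _).2 h1
    obtain ⟨J, h3, h4, h5, h6⟩ := syl (QuotientGroup.mk' Y) hp (hK T fun t ht => hX (h1 t ht))
      (isP_map fun y hy => hP y (hE hy))
    have h7 := Subgroup.mem_map_of_mem (QuotientGroup.mk' Y) h2
    rw [Subgroup.map_lowerCentralSeries, ← h6, ← Subgroup.map_lowerCentralSeries,
      hc p hp J (h3.trans (hE.trans hX)) h4 h5, Subgroup.map_bot, Subgroup.mem_bot] at h7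
    exact (QuotientGroup.eq_one_iff _).1 h7
  part := by
    intro G _ K Y d r hr hK hY hYK hL hd
    let P : Subgroup G :=
      { carrier := {x | x ∈ K ∧ ∃ e : ℕ, x ^ r ^ e ∈ Y}
        one_mem' := ⟨one_mem _, 0, by simp⟩
        mul_mem' := fun ha hb => ⟨mul_mem ha.1 hb.1, (nilY hr hL hd ha.1 hb.1).1 ha.2 hb.2⟩
        inv_mem' := fun ⟨ha, e, he⟩ => ⟨inv_mem ha, e, by rw [inv_pow]; exact inv_mem he⟩ }
    let P' : Subgroup G :=
      { carrier := {x | x ∈ K ∧ ∃ m : ℕ, m.Coprime r ∧ x ^ m ∈ Y}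
        one_mem' := ⟨one_mem _, 1, by simp, by simp⟩
        mul_mem' := fun ha hb => ⟨mul_mem ha.1 hb.1, (nilY hr hL hd ha.1 hb.1).2.1 ha.2 hb.2⟩
        inv_mem' := fun ⟨ha, m, hm, he⟩ =>
          ⟨inv_mem ha, m, hm, by rw [inv_pow]; exact inv_mem he⟩ }
    refine ⟨P, P', ⟨fun x ⟨hx, e, he⟩ g => ⟨hK.conj_mem x hx g, e, ?_⟩⟩,
      ⟨fun x ⟨hx, m, hm, he⟩ g => ⟨hK.conj_mem x hx g, m, hm, ?_⟩⟩, fun _ => Iff.rfl,
      fun _ => Iff.rfl, le_antisymm (sup_le (fun _ h => h.1) fun _ h => h.1) fun x hx => ?_,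
      le_antisymm ?_ fun x hx => ⟨⟨hYK hx, 0, by simpa using hx⟩, hYK hx, 1, by simp,
        by simpa using hx⟩,
      Subgroup.commutator_le.2 fun a ha b hb => (nilY hr hL hd ha.1 hb.1).2.2 ha.2 hb.2⟩
    · rw [conj_pow]
      exact hY.conj_mem _ he g
    · rw [conj_pow]
      exact hY.conj_mem _ he g
    · have hE := hL {x} (by simpa using hx)
      have h0 : 0 < orderOf x := by
        have := orderOf_pos (⟨x, Subgroup.subset_closure (by simp)⟩ :
          Subgroup.closure (↑({x} : Finset G) : Set G))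
        rwa [Subgroup.orderOf_mk] at this
      obtain ⟨v, m, hm, hn⟩ := Nat.exists_eq_pow_mul_and_not_dvd h0.ne' r hr.ne_one
      have hm' : m.Coprime r := ((Nat.Prime.coprime_iff_not_dvd hr).2 hm).symm
      have h1 : x ^ (r ^ v * m) = 1 := by rw [← hn, pow_orderOf_eq_one]
      have h2 : x ^ m ∈ P := ⟨pow_mem hx _, v, by rw [← pow_mul, mul_comm, h1]; exact one_mem _⟩
      have h3 : x ^ r ^ v ∈ P' := ⟨pow_mem hx _, m, hm', by rw [← pow_mul, h1]; exact one_mem _⟩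
      have h4 := Nat.gcd_eq_gcd_ab m (r ^ v)
      rw [hm'.pow_right v, Nat.cast_one] at h4
      have h5 := mul_mem (Subgroup.mem_sup_left (T := P') (zpow_mem h2 (Nat.gcdA m (r ^ v))))
        (Subgroup.mem_sup_right (zpow_mem h3 (Nat.gcdB m (r ^ v))))
      rwa [← zpow_natCast, ← zpow_natCast, ← zpow_mul, ← zpow_mul, ← zpow_add, ← h4,
        zpow_one] at h5
    · rintro x ⟨⟨-, e, he⟩, -, m, hm, hx⟩
      refine (QuotientGroup.eq_one_iff _).1 (one_of_coprime (hm.pow_right e) ?_ ?_)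
      · exact (QuotientGroup.eq_one_iff _).2 hx
      · exact (QuotientGroup.eq_one_iff _).2 he
  lift := by
    intro G _ X R E r hr hX hR hRE hEX hi hP
    obtain ⟨J, -, h2, h3, h4⟩ := lift1 (QuotientGroup.mk' R) hr (locFin_le hEX hX) le_rfl
      (Nat.finite_of_card_ne_zero (by
        rwa [← Subgroup.relIndex_ker, QuotientGroup.ker_mk'])) (isP_map hP)
    refine ⟨J, h2, h3, ?_⟩
    have h5 := congrArg (Subgroup.comap (QuotientGroup.mk' R)) h4
    rwa [Subgroup.comap_map_eq, Subgroup.comap_map_eq, QuotientGroup.ker_mk',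
      sup_eq_left.2 hRE] at h5
  conj := by
    intro G _ X R J J' r hr hX hR hRX hco hJX hJ hJ' hp hp' he
    have := Fact.mk hr
    have hf : ((J : Set G) ∪ J').Finite := (Set.toFinite _).union (Set.toFinite _)
    have hJX' : J' ≤ X := (le_sup_left.trans he.ge).trans (sup_le hJX hRX)
    have hH := hX hf.toFinset fun t ht => (hf.mem_toFinset.1 ht).elim (@hJX t) (@hJX' t)
    rw [hf.coe_toFinset, Subgroup.closure_union, Subgroup.closure_eq, Subgroup.closure_eq] at hH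
    have hle : J ⊔ J' ≤ J ⊔ R := sup_le le_sup_left (le_sup_left.trans he.ge)
    obtain ⟨P, hP⟩ := sylowOf hco hp le_sup_left hle
    obtain ⟨P', hP'⟩ := sylowOf hco hp' le_sup_right (hle.trans he.le)
    obtain ⟨h, hh⟩ := MulAction.exists_smul_eq (J ⊔ J' : Subgroup G) P P'
    have key : ∀ y : (J ⊔ J' : Subgroup G), (y : G) ∈ J' ↔ (h : G)⁻¹ * y * h ∈ J := by
      intro y
      rw [← Subgroup.mem_subgroupOf, ← hP', ← hh, Sylow.coe_subgroup_smul,
        Subgroup.mem_pointwise_smul_iff_inv_smul_mem, hP, Subgroup.mem_subgroupOf]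
      simp
    obtain ⟨x, hx, j, hj, e⟩ := Subgroup.mem_sup_of_normal_left.1 (sup_comm J R ▸ hle h.2)
    have e1 : ∀ y : G, (h : G)⁻¹ * y * h ∈ J ↔ x⁻¹ * y * x ∈ J := by
      intro y
      have e2 : (h : G)⁻¹ * y * h = j⁻¹ * (x⁻¹ * y * x * j) := by simp [← e, mul_assoc]
      rw [e2, Subgroup.mul_mem_cancel_left _ (inv_mem hj), Subgroup.mul_mem_cancel_right _ hj]
    refine ⟨x, hx, fun y => ⟨fun hy => (e1 y).1 ((key ⟨y, Subgroup.mem_sup_right hy⟩).1 hy),
      fun hy => ?_⟩⟩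
    have h1 := (e1 y).2 hy
    have h2 : y ∈ J ⊔ J' := by
      have := mul_mem (mul_mem h.2 (Subgroup.mem_sup_left h1)) (inv_mem h.2)
      simpa [mul_assoc] using this
    exact (key ⟨y, h2⟩).2 h1

end Pool.Agent.MP_5c28a4_al.H89S
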