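import Pool.Agent.MP_5c28a4_al.H68S.Spec

/-!
Section S2: unipotent powers give a nilpotent subgroup of finite index.
-/

set_option autoImplicit false

namespace Pool.Agent.MP_5c28a4_al.H89S.StrA

open StA

namespace StrAl2

/-- the ascending chain condition -/
lemma acc {G : Type} [Group G] (h : ∀ H : Subgroup G, H.FG) : WellFoundedGT (Subgroup G) := by
  classical
  refine wellFoundedGT_iff_monotone_chain_condition.2 fun a => ?_
  obtain ⟨S, hS⟩ := h (⨆ n, a n)
  have h1 : ∀ x ∈ S, ∃ n, x ∈ a n := fun x hx =>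
    (Subgroup.mem_iSup_of_directed a.monotone.directed_le).1 (hS ▸ Subgroup.subset_closure hx)
  choose! n hn using h1
  refine ⟨S.sup n, fun m hm => le_antisymm (a.monotone hm) ((le_iSup (fun n => a n) m).trans ?_)⟩
  rw [← hS, Subgroup.closure_le]
  exact fun x hx => a.monotone (Finset.le_sup (f := n) hx) (hn x hx)

variable {Q : Type} [Group Q]

lemma cl (L e : ℕ) : Cl (N := Q) fun _ _ σ => ∀ z, (σ (z ^ L) - 1) ^ e = 0 := by
  refine ⟨fun A _ ρ W hW h z => ?_, fun A _ ρ W hW h z => ?_⟩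
  · have key : ∀ (k : ℕ) (a : W), (((ρ.subrepresentation W hW (z ^ L) - 1) ^ k) a : A) =
        ((ρ (z ^ L) - 1) ^ k) a := by
      intro k
      induction k with
      | zero => exact fun _ => rfl
      | succ k ih =>
        intro a
        rw [pow_succ, pow_succ, Module.End.mul_apply, Module.End.mul_apply, ih]
        rfl
    exact LinearMap.ext fun a => Subtype.ext (by rw [key, h]; rfl)
  · have key : ∀ (k : ℕ) (a : A), ((ρ.quotient W hW (z ^ L) - 1) ^ k) (Submodule.Quotient.mk a) =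
        Submodule.Quotient.mk (((ρ (z ^ L) - 1) ^ k) a) := by
      intro k
      induction k with
      | zero => exact fun _ => rfl
      | succ k ih =>
        intro a
        rw [pow_succ, pow_succ, Module.End.mul_apply, Module.End.mul_apply, ← ih]
        rfl
    refine LinearMap.ext fun a => ?_
    obtain ⟨a, rfl⟩ := Submodule.Quotient.mk_surjective _ a
    rw [key, h]
    rfl

lemma nil_single {A : Type} [AddCommGroup A] (σ : Representation ℤ Q A) (x : Q) (e : ℕ)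
    (h : (σ x - 1) ^ e = 0) : Nil σ {x} e := nil_iff.2 fun l hl hS => by
  rw [List.eq_replicate_iff.2 ⟨hl, hS⟩, List.map_replicate, List.prod_replicate, h]

/-- the power subgroup of a finitely generated abelian subgroup acts nilpotently -/
lemma nil_pw {A : Type} [AddCommGroup A] (σ : Representation ℤ Q A) (L e : ℕ)
    (h : ∀ z, (σ (z ^ L) - 1) ^ e = 0) (Z : Subgroup Q) (hZ : Cm Z Z) (hf : (pw Z L).FG) :
    ∃ t, Nil σ (pw Z L) t := by
  obtain ⟨T, hT⟩ := hf
  have h1 : ∀ x ∈ T, x ∈ pw Z L := fun x hx => hT ▸ Subgroup.subset_closure hx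
  have h2 := nil_biUnion (ρ := σ) T (fun x => {x}) Z hZ (n := e)
    (fun x hx => Set.singleton_subset_iff.2 (pw_le Z L (h1 x hx))) fun x hx => by
      obtain ⟨y, _, rfl⟩ := mem_pw hZ (h1 x hx)
      exact nil_single σ _ e (h y)
  refine ⟨_, hT ▸ Nil.closure (h2.mono (fun x hx => ?_) le_rfl)⟩
  exact Set.mem_iUnion₂.2 ⟨x, hx, rfl⟩

end StrAl2

open StrAl2

theorem al2 (hV : BVn) : SAl2 := by
  intro Q M _ _ σ hQ K c L e hK hN hL h
  have := hK.1
  have hfg : ∀ (X : Subgroup Q) [X.Normal], Group.FG (Q ⧸ X) := fun X _ =>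
    fg_of_surj hQ (QuotientGroup.mk' X) (QuotientGroup.mk'_surjective X)
  have wf := acc (hV.fg _ (hfg K) ((hV.quot Q K).1 hK))
  obtain ⟨_, ⟨X, ⟨hX, hKX, n, hn⟩, rfl⟩, hmax⟩ := wf.wf.has_min
    ((fun X : Subgroup Q => X.map (QuotientGroup.mk' K)) ''
      {X | X.Normal ∧ K ≤ X ∧ ∃ n, Nil σ X n}) ⟨_, K, ⟨hK.1, le_rfl, c, hN⟩, rfl⟩
  refine ⟨X, n, hX, ⟨fun h0 => ?_⟩, hn⟩
  have hinf : Infinite (Q ⧸ X) := Subgroup.index_eq_zero_iff_infinite.1 h0
  have hvn : VN (Q ⧸ X) := (hV.quot Q X).1 (hV.mono Q K X hK hKX hX)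
  obtain ⟨Z, hZ, hZ0, hc, htf, -⟩ := hV.cen _ (hfg X) hvn hinf
  have := pw_normal Z L
  have hle : X ≤ (pw Z L).comap (QuotientGroup.mk' X) := fun x hx => by
    rw [Subgroup.mem_comap, QuotientGroup.mk'_apply, (QuotientGroup.eq_one_iff x).2 hx]
    exact Subgroup.one_mem _
  obtain ⟨_, rfl, m, hm, t, ht⟩ := red0 (Λ := ⊥) (cl L e) {(pw Z L).comap (QuotientGroup.mk' X)}
    (fun K hK K' hK' => ⟨_, rfl, le_of_eq hK.symm, le_of_eq hK'.symm⟩) X (fun A _ τ h1 h2 => by
      obtain ⟨t, ht⟩ := nil_pw (QuotientGroup.lift X τ h2 : Representation ℤ (Q ⧸ X) A) L e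
        (fun z => by
          obtain ⟨z, rfl⟩ := QuotientGroup.mk'_surjective X z
          rw [← map_pow]
          exact h1 z) Z hc (hV.fg _ (hfg X) hvn _)
      exact ⟨_, rfl, Tm.of_nil (Nil.of_map (QuotientGroup.mk' X) (fun _ => rfl)
        (ht.mono (by rintro _ ⟨x, hx, rfl⟩; exact hx) le_rfl))⟩) h (Tm.of_nil hn)
  rw [Submonoid.mem_bot.1 hm] at ht
  refine hmax _ ⟨_, ⟨inferInstance, hKX.trans hle, t, fun a => by simpa using ht a⟩, rfl⟩ ?_
  refine lt_of_le_of_ne (Subgroup.map_mono hle) fun heq => hZ0 (eq_bot_iff.2 fun z hz => ?_)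
  have h3 := congrArg (Subgroup.comap (QuotientGroup.mk' K)) heq
  simp only [Subgroup.comap_map_eq, QuotientGroup.ker_mk'] at h3
  rw [sup_of_le_left hKX, sup_of_le_left (hKX.trans hle)] at h3
  obtain ⟨y, rfl⟩ := QuotientGroup.mk'_surjective X z
  have h4 : y ^ L ∈ X := by
    rw [h3, Subgroup.mem_comap, map_pow]
    exact pow_mem_pw hz L
  refine Subgroup.mem_bot.2 (htf _ hz (isOfFinOrder_iff_pow_eq_one.2 ⟨L, hL, ?_⟩))
  rw [← map_pow]
  exact (QuotientGroup.eq_one_iff _).2 h4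

end Pool.Agent.MP_5c28a4_al.H89S.StrA
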